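import Mathlib

/-!
# MP_5bb92a_co: the packing density of a thin cylinder exceeds `π/√12`

Definitions. Coins are cylinders of radius `1` and height `hh = 1/10000`. There are layers `l ∈ ℤ`
in the direction of the coordinate `p 1`; the coins of an even layer have their axis along `p 0`
and lie in a slab `s * hh ≤ p 0 ≤ (s+1) * hh`, the coins of an odd layer have their axis along
`p 2` and lie in a slab of `p 2`.
-/

set_option autoImplicit false

open MeasureTheory Set

namespace Pool.Agent.Lib.MP_5bb92a_co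

/-- three dimensional space -/
abbrev E3 := EuclideanSpace ℝ (Fin 3)

/-- the height of the coins -/
noncomputable def hh : ℝ := 1 / 10000

/-- a quarter of the period -/
noncomputable def rho : ℝ := 1732 / 1000

/-- the `2`-periodic half circle -/
noncomputable def ph (s : ℝ) : ℝ := Real.sqrt (1 - (s - 2 * (round (s / 2) : ℤ)) ^ 2)

/-- phases of the layers `0 mod 4` -/
noncomputable def ca (k : Bool) : ℝ := if k then 15 / 100 else -13 / 100

/-- phases of the layers `1 mod 4` -/
noncomputable def cc (j : Bool) : ℝ := if j then -17 / 100 else 11 / 100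

/-- the certificate -/
noncomputable def cA (k j : Bool) : ℝ :=
  if k then (if j then 9715 / 10000 else 7943 / 10000)
  else (if j then 7718 / 10000 else 9258 / 10000)

/-- the piece of the slab `s`: `false` if it is in `[2n, 2n+1]`, `true` if it is in
`[2n+1, 2n+2]` -/
def pc (s : ℤ) : Bool := decide (s / 10000 % 2 = 1)

/-- the left end of the piece `k` in the period number `n` -/
noncomputable def pl (k : Bool) (n : ℤ) : ℝ := 2 * n + (if k then 1 else 0)

/-- the slab number `s` -/
def slab (s : ℤ) : Set ℝ := Set.Icc (s * hh) ((s + 1) * hh)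

/-- the conditions on the heights of the layers `0, 2 mod 4` -/
def GoodY (y : ℤ → ℝ) : Prop := ∀ (s : ℤ) (x : ℝ), x ∈ slab s → ∀ j : Bool,
  y s + ph (x - cc j) ≤ cA (pc s) j ∧ -y s + ph (1 - x - cc j) ≤ cA (pc s) j

/-- the conditions on the heights of the layers `1, 3 mod 4` -/
def GoodZ (Y : ℤ → ℝ) : Prop := ∀ (s : ℤ) (z : ℝ), z ∈ slab s → ∀ k : Bool,
  cA k (pc s) + ph (z - ca k) ≤ rho + Y s ∧ cA k (pc s) + ph (1 - z - ca k) ≤ rho - Y s

/-- the height of the coins of the layer `l` in the slab `s` -/
noncomputable def ctr (y Y : ℤ → ℝ) (l s : ℤ) : ℝ :=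
  4 * rho * ((l / 4 : ℤ) : ℝ) + (if l % 4 = 0 then y s else if l % 4 = 1 then rho + Y s
    else if l % 4 = 2 then 2 * rho - y s else 3 * rho - Y s)

/-- the phase of the layer `l` in the slab `s` -/
noncomputable def off (l s : ℤ) : ℝ :=
  if l % 4 = 0 then ca (pc s) else if l % 4 = 1 then cc (pc s)
    else if l % 4 = 2 then 1 - ca (pc s) else 1 - cc (pc s)

/-- the coordinate along the axis of the coins of the layer `l` -/
noncomputable def ax (l : ℤ) (p : E3) : ℝ := if l % 2 = 0 then p 0 else p 2

/-- the transversal coordinate of the layer `l` -/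
noncomputable def tr (l : ℤ) (p : E3) : ℝ := if l % 2 = 0 then p 2 else p 0

/-- the coin number `k` in the slab `s` of the layer `l` -/
noncomputable def coin (y Y : ℤ → ℝ) (l s k : ℤ) : Set E3 :=
  {p | (tr l p - (off l s + 2 * k)) ^ 2 + (p 1 - ctr y Y l s) ^ 2 ≤ 1 ∧
    s * hh ≤ ax l p ∧ ax l p ≤ (s + 1) * hh}

/-- the open coin -/
noncomputable def oc (y Y : ℤ → ℝ) (l s k : ℤ) : Set E3 :=
  {p | (tr l p - (off l s + 2 * k)) ^ 2 + (p 1 - ctr y Y l s) ^ 2 < 1 ∧
    s * hh < ax l p ∧ ax l p < (s + 1) * hh}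

end Pool.Agent.Lib.MP_5bb92a_co
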