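import Mathlib
import Pool.Agent.Lib.MP_5bb92a_co.Defs

set_option autoImplicit false

open MeasureTheory Set

namespace Pool.Agent.Lib.MP_5bb92a_co

theorem ph_nonneg (s : ℝ) : 0 ≤ ph s := Real.sqrt_nonneg _

private theorem abs_sub_two_round (s : ℝ) : |s - 2 * (round (s / 2) : ℤ)| ≤ 1 := by
  have h := abs_sub_round (s / 2)
  have h2 : s - 2 * ((round (s / 2) : ℤ) : ℝ) = 2 * (s / 2 - (round (s / 2) : ℤ)) := by ring
  rw [h2, abs_mul, abs_of_pos (by norm_num : (0 : ℝ) < 2)]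
  linarith

theorem ph_eq {s : ℝ} (k : ℤ) (h : |s - 2 * k| ≤ 1) :
    ph s = Real.sqrt (1 - (s - 2 * k) ^ 2) := by
  unfold ph
  have hr := abs_sub_two_round s
  set r : ℤ := round (s / 2) with hrdef
  rw [abs_le] at h hr
  have h1 : ((k - r : ℤ) : ℝ) ≤ 1 := by push_cast; linarith
  have h2 : (-1 : ℝ) ≤ ((k - r : ℤ) : ℝ) := by push_cast; linarith
  have h1' : k - r ≤ 1 := by exact_mod_cast h1
  have h2' : -1 ≤ k - r := by exact_mod_cast h2
  have hcases : k - r = 0 ∨ k - r = 1 ∨ k - r = -1 := by omega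
  have hsq : (s - 2 * (r : ℝ)) ^ 2 = (s - 2 * (k : ℝ)) ^ 2 := by
    rcases hcases with h0 | h0 | h0
    · have : k = r := by omega
      rw [this]
    · have hk : (k : ℝ) = r + 1 := by
        have : k = r + 1 := by omega
        rw [this]; push_cast; ring
      have e1 : s - 2 * (k : ℝ) = -1 := by
        have a1 := h.1
        have a2 := hr.2
        rw [hk] at a1 ⊢
        linarith
      have e2 : s - 2 * (r : ℝ) = 1 := by rw [hk] at e1; linarith
      rw [e1, e2]; norm_num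
    · have hk : (k : ℝ) = r - 1 := by
        have : k = r - 1 := by omega
        rw [this]; push_cast; ring
      have e1 : s - 2 * (k : ℝ) = 1 := by
        have a1 := h.2
        have a2 := hr.1
        rw [hk] at a1 ⊢
        linarith
      have e2 : s - 2 * (r : ℝ) = -1 := by rw [hk] at e1; linarith
      rw [e1, e2]; norm_num
  rw [hsq]

theorem ph_add (s : ℝ) (k : ℤ) : ph (s + 2 * k) = ph s := by
  unfold ph
  have h : (s + 2 * (k : ℝ)) / 2 = s / 2 + (k : ℝ) := by ring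
  rw [h, round_add_intCast]
  congr 2
  push_cast
  ring

theorem ph_neg (s : ℝ) : ph (-s) = ph s := by
  have hr := abs_sub_two_round s
  rw [ph_eq (s := -s) (-(round (s / 2))) (by
    push_cast
    rw [← abs_neg]
    have : -(-s - 2 * -((round (s / 2) : ℤ) : ℝ)) = s - 2 * (round (s / 2) : ℤ) := by ring
    rw [this]
    exact hr)]
  unfold ph
  congr 1
  push_cast
  ring

/-- tangent lines -/
theorem ph_le_lin {s α β : ℝ} (k : ℤ) (h : |s - 2 * k| ≤ 1) (hα : 0 < α)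
    (hαβ : 1 + β ^ 2 ≤ α ^ 2) : ph s ≤ α - β * (s - 2 * k) := by
  rw [ph_eq k h]
  set t : ℝ := s - 2 * (k : ℝ) with ht
  have hβ : |β| < α := by
    refine abs_lt_of_sq_lt_sq ?_ hα.le
    linarith
  have hbt : β * t ≤ |β| := by
    calc β * t ≤ |β * t| := le_abs_self _
      _ = |β| * |t| := abs_mul _ _
      _ ≤ |β| * 1 := mul_le_mul_of_nonneg_left h (abs_nonneg _)
      _ = |β| := mul_one _
  refine Real.sqrt_le_iff.2 ⟨by linarith, ?_⟩
  have hpos : 0 < 1 + β ^ 2 := by positivity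
  have key : 0 ≤ (1 + β ^ 2) * ((1 + β ^ 2) * t ^ 2 - 2 * α * β * t + α ^ 2 - 1) := by
    have e : (1 + β ^ 2) * ((1 + β ^ 2) * t ^ 2 - 2 * α * β * t + α ^ 2 - 1) =
        ((1 + β ^ 2) * t - α * β) ^ 2 + (α ^ 2 - (1 + β ^ 2)) := by ring
    rw [e]
    have := sq_nonneg ((1 + β ^ 2) * t - α * β)
    linarith
  have key2 : 0 ≤ (1 + β ^ 2) * t ^ 2 - 2 * α * β * t + α ^ 2 - 1 :=
    nonneg_of_mul_nonneg_right key hpos
  nlinarith

theorem ph_le_one (s : ℝ) : ph s ≤ 1 := by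
  unfold ph
  refine Real.sqrt_le_iff.2 ⟨zero_le_one, ?_⟩
  have := sq_nonneg (s - 2 * ((round (s / 2) : ℤ) : ℝ))
  linarith

/-- the chord of a disc -/
theorem abs_le_ph {s t : ℝ} (k : ℤ) (h : (s - 2 * k) ^ 2 + t ^ 2 < 1) : |t| < ph s := by
  have h1 : |s - 2 * (k : ℝ)| ≤ 1 := by
    rw [← sq_le_one_iff_abs_le_one]
    have := sq_nonneg t
    linarith
  rw [ph_eq k h1]
  refine Real.lt_sqrt_of_sq_lt ?_
  rw [sq_abs]
  linarith

end Pool.Agent.Lib.MP_5bb92a_co
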