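import Mathlib
import Pool.Agent.Lib.MP_5bb92a_co.Phi

set_option autoImplicit false
set_option linter.unusedVariables false

open MeasureTheory Set

namespace Pool.Agent.Lib.MP_5bb92a_co

private theorem cx_bd0 {s α β : ℝ} (h1 : -1 ≤ s) (h2 : s ≤ 1) (hα : 0 < α)
    (hαβ : 1 + β ^ 2 ≤ α ^ 2) : ph s ≤ α - β * s := by
  have h := ph_le_lin (s := s) (α := α) (β := β) 0 (by
    rw [abs_le]; push_cast; constructor <;> linarith) hα hαβ
  push_cast at h
  linarith

private theorem cx_bdp {s α β : ℝ} (h1 : 1 ≤ s) (h2 : s ≤ 3) (hα : 0 < α)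
    (hαβ : 1 + β ^ 2 ≤ α ^ 2) : ph s ≤ α - β * (s - 2) := by
  have h := ph_le_lin (s := s) (α := α) (β := β) 1 (by
    rw [abs_le]; push_cast; constructor <;> linarith) hα hαβ
  push_cast at h
  linarith

private theorem cx_bdm {s α β : ℝ} (h1 : -3 ≤ s) (h2 : s ≤ -1) (hα : 0 < α)
    (hαβ : 1 + β ^ 2 ≤ α ^ 2) : ph s ≤ α - β * (s + 2) := by
  have h := ph_le_lin (s := s) (α := α) (β := β) (-1) (by
    rw [abs_le]; push_cast; constructor <;> linarith) hα hαβ
  push_cast at h
  linarith

private theorem cx_1 {v w : ℝ} (hv0 : 0 ≤ v) (hv1 : v ≤ 1) (hw0 : 0 ≤ w) (hw1 : w ≤ 1)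
    (h1 : v - w ≤ 1 / 10000) (h2 : w - v ≤ 1 / 10000) :
    ph (v - 11 / 100) + ph (w - 89 / 100) ≤ 18516 / 10000 := by
  have a1 := cx_bd0 (s := v - 11 / 100) (α := 1.0862) (β := 0.424) (by linarith) (by linarith)
    (by norm_num) (by norm_num)
  have a2 := cx_bd0 (s := w - 89 / 100) (α := 1.0862) (β := -0.424) (by linarith) (by linarith)
    (by norm_num) (by norm_num)
  norm_num at a1 a2 ⊢
  linarith

private theorem cx_2 {v w : ℝ} (hv0 : 0 ≤ v) (hv1 : v ≤ 1) (hw0 : 0 ≤ w) (hw1 : w ≤ 1)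
    (h1 : v - w ≤ 1 / 10000) (h2 : w - v ≤ 1 / 10000) :
    ph (v - 11 / 100) + ph (w - 117 / 100) ≤ 16976 / 10000 := by
  rcases le_total (17 / 100) w with h | h
  · have a1 := cx_bd0 (s := v - 11 / 100) (α := 1.17926) (β := 0.625) (by linarith)
      (by linarith) (by norm_num) (by norm_num)
    have a2 := cx_bd0 (s := w - 117 / 100) (α := 1.17926) (β := -0.625) (by linarith)
      (by linarith) (by norm_num) (by norm_num)
    norm_num at a1 a2 ⊢
    linarith
  · have a1 := ph_le_one (v - 11 / 100)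
    have a2 := cx_bdm (s := w - 117 / 100) (α := 1.79285) (β := 1.488) (by linarith)
      (by linarith) (by norm_num) (by norm_num)
    norm_num at a1 a2 ⊢
    linarith

private theorem cx_3 {v w : ℝ} (hv0 : 0 ≤ v) (hv1 : v ≤ 1) (hw0 : 0 ≤ w) (hw1 : w ≤ 1)
    (h1 : v - w ≤ 1 / 10000) (h2 : w - v ≤ 1 / 10000) :
    ph (v + 17 / 100) + ph (w - 89 / 100) ≤ 16976 / 10000 := by
  rcases le_total v (83 / 100) with h | h
  · have a1 := cx_bd0 (s := v + 17 / 100) (α := 1.17926) (β := 0.625) (by linarith)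
      (by linarith) (by norm_num) (by norm_num)
    have a2 := cx_bd0 (s := w - 89 / 100) (α := 1.17926) (β := -0.625) (by linarith)
      (by linarith) (by norm_num) (by norm_num)
    norm_num at a1 a2 ⊢
    linarith
  · have a1 := ph_le_one (w - 89 / 100)
    have a2 := cx_bdp (s := v + 17 / 100) (α := 1.79285) (β := -1.488) (by linarith)
      (by linarith) (by norm_num) (by norm_num)
    norm_num at a1 a2 ⊢
    linarith

private theorem cx_4 {v w : ℝ} (hv0 : 0 ≤ v) (hv1 : v ≤ 1) (hw0 : 0 ≤ w) (hw1 : w ≤ 1)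
    (h1 : v - w ≤ 1 / 10000) (h2 : w - v ≤ 1 / 10000) :
    ph (v + 17 / 100) + ph (w - 117 / 100) ≤ 15436 / 10000 := by
  rcases le_total v (83 / 100) with h | h
  · rcases le_total (17 / 100) w with h' | h'
    · have a1 := cx_bd0 (s := v + 17 / 100) (α := 1.34711) (β := 0.9025) (by linarith)
        (by linarith) (by norm_num) (by norm_num)
      have a2 := cx_bd0 (s := w - 117 / 100) (α := 1.34711) (β := -0.9025) (by linarith)
        (by linarith) (by norm_num) (by norm_num)
      norm_num at a1 a2 ⊢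
      linarith
    · have a1 := cx_bd0 (s := v + 17 / 100) (α := 1.01478) (β := 0.1725) (by linarith)
        (by linarith) (by norm_num) (by norm_num)
      have a2 := cx_bdm (s := w - 117 / 100) (α := 1.79285) (β := 1.488) (by linarith)
        (by linarith) (by norm_num) (by norm_num)
      norm_num at a1 a2 ⊢
      linarith
  · have a1 := cx_bdp (s := v + 17 / 100) (α := 1.79285) (β := -1.488) (by linarith)
      (by linarith) (by norm_num) (by norm_num)
    have a2 := cx_bd0 (s := w - 117 / 100) (α := 1.01478) (β := -0.1725) (by linarith)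
      (by linarith) (by norm_num) (by norm_num)
    norm_num at a1 a2 ⊢
    linarith

private theorem cx_5 {v w : ℝ} (hv0 : 1 ≤ v) (hv1 : v ≤ 2) (hw0 : 1 ≤ w) (hw1 : w ≤ 2)
    (h1 : v - w ≤ 1 / 10000) (h2 : w - v ≤ 1 / 10000) :
    ph (v - 11 / 100) + ph (w - 89 / 100) ≤ 15886 / 10000 := by
  rcases le_total (111 / 100) v with h | h
  · rcases le_total w (189 / 100) with h' | h'
    · have a1 := cx_bdp (s := v - 11 / 100) (α := 1.2622) (β := -0.77) (by linarith)
        (by linarith) (by norm_num) (by norm_num)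
      have a2 := cx_bd0 (s := w - 89 / 100) (α := 1.2622) (β := 0.77) (by linarith)
        (by linarith) (by norm_num) (by norm_num)
      norm_num at a1 a2 ⊢
      linarith
    · have a1 := ph_le_one (v - 11 / 100)
      have a2 := cx_bdp (s := w - 89 / 100) (α := 2.1915) (β := -1.95) (by linarith)
        (by linarith) (by norm_num) (by norm_num)
      norm_num at a1 a2 ⊢
      linarith
  · have a1 := ph_le_one (w - 89 / 100)
    have a2 := cx_bd0 (s := v - 11 / 100) (α := 2.1915) (β := 1.95) (by linarith)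
      (by linarith) (by norm_num) (by norm_num)
    norm_num at a1 a2 ⊢
    linarith

private theorem cx_6 {v w : ℝ} (hv0 : 1 ≤ v) (hv1 : v ≤ 2) (hw0 : 1 ≤ w) (hw1 : w ≤ 2)
    (h1 : v - w ≤ 1 / 10000) (h2 : w - v ≤ 1 / 10000) :
    ph (v - 11 / 100) + ph (w - 117 / 100) ≤ 17658 / 10000 := by
  rcases le_total (111 / 100) v with h | h
  · have a1 := cx_bdp (s := v - 11 / 100) (α := 1.13295) (β := -0.5325) (by linarith)
      (by linarith) (by norm_num) (by norm_num)
    have a2 := cx_bd0 (s := w - 117 / 100) (α := 1.13295) (β := 0.5325) (by linarith)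
      (by linarith) (by norm_num) (by norm_num)
    norm_num at a1 a2 ⊢
    linarith
  · have a1 := ph_le_one (w - 117 / 100)
    have a2 := cx_bd0 (s := v - 11 / 100) (α := 2.1915) (β := 1.95) (by linarith)
      (by linarith) (by norm_num) (by norm_num)
    norm_num at a1 a2 ⊢
    linarith

private theorem cx_7 {v w : ℝ} (hv0 : 1 ≤ v) (hv1 : v ≤ 2) (hw0 : 1 ≤ w) (hw1 : w ≤ 2)
    (h1 : v - w ≤ 1 / 10000) (h2 : w - v ≤ 1 / 10000) :
    ph (v + 17 / 100) + ph (w - 89 / 100) ≤ 17658 / 10000 := by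
  rcases le_total w (189 / 100) with h | h
  · have a1 := cx_bdp (s := v + 17 / 100) (α := 1.13295) (β := -0.5325) (by linarith)
      (by linarith) (by norm_num) (by norm_num)
    have a2 := cx_bd0 (s := w - 89 / 100) (α := 1.13295) (β := 0.5325) (by linarith)
      (by linarith) (by norm_num) (by norm_num)
    norm_num at a1 a2 ⊢
    linarith
  · have a1 := ph_le_one (v + 17 / 100)
    have a2 := cx_bdp (s := w - 89 / 100) (α := 2.1915) (β := -1.95) (by linarith)
      (by linarith) (by norm_num) (by norm_num)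
    norm_num at a1 a2 ⊢
    linarith

private theorem cx_8 {v w : ℝ} (hv0 : 1 ≤ v) (hv1 : v ≤ 2) (hw0 : 1 ≤ w) (hw1 : w ≤ 2)
    (h1 : v - w ≤ 1 / 10000) (h2 : w - v ≤ 1 / 10000) :
    ph (v + 17 / 100) + ph (w - 117 / 100) ≤ 19430 / 10000 := by
  have a1 := cx_bdp (s := v + 17 / 100) (α := 1.0595) (β := -0.35) (by linarith)
    (by linarith) (by norm_num) (by norm_num)
  have a2 := cx_bd0 (s := w - 117 / 100) (α := 1.0595) (β := 0.35) (by linarith)
    (by linarith) (by norm_num) (by norm_num)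
  norm_num at a1 a2 ⊢
  linarith

theorem certX (k j j' : Bool) (n : ℤ) (u u' : ℝ) (hu : u ∈ Set.Icc (pl k n) (pl k n + 1))
    (hu' : u' ∈ Set.Icc (pl k n) (pl k n + 1)) (huu : |u - u'| ≤ hh) :
    ph (u - cc j) + ph (1 - u' - cc j') ≤ cA k j + cA k j' := by
  obtain ⟨hu0, hu1⟩ := hu
  obtain ⟨hw0, hw1⟩ := hu'
  have h1 : (u - 2 * n) - (u' - 2 * n) ≤ 1 / 10000 := by
    have := (abs_le.1 huu).2
    unfold hh at this
    linarith
  have h2 : (u' - 2 * n) - (u - 2 * n) ≤ 1 / 10000 := by
    have := (abs_le.1 huu).1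
    unfold hh at this
    linarith
  have e1 : ph (u - cc j) = ph ((u - 2 * n) - cc j) := by
    rw [← ph_add ((u - 2 * n) - cc j) n]
    congr 1
    ring
  have e2 : ph (1 - u' - cc j') = ph ((u' - 2 * n) - (1 - cc j')) := by
    rw [← ph_neg, ← ph_add ((u' - 2 * n) - (1 - cc j')) n]
    congr 1
    ring
  rw [e1, e2]
  set v : ℝ := u - 2 * n with hv
  set w : ℝ := u' - 2 * n with hw
  unfold pl at hu0 hu1 hw0 hw1
  cases k
  · have hv0 : 0 ≤ v := by
      rw [hv]; simp only [Bool.false_eq_true, if_false] at hu0; linarith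
    have hv1 : v ≤ 1 := by
      rw [hv]; simp only [Bool.false_eq_true, if_false] at hu1; linarith
    have hw0' : 0 ≤ w := by
      rw [hw]; simp only [Bool.false_eq_true, if_false] at hw0; linarith
    have hw1' : w ≤ 1 := by
      rw [hw]; simp only [Bool.false_eq_true, if_false] at hw1; linarith
    cases j <;> cases j'
    · have h := cx_1 hv0 hv1 hw0' hw1' h1 h2
      norm_num [cc, cA] at h ⊢
      linarith
    · have h := cx_2 hv0 hv1 hw0' hw1' h1 h2
      norm_num [cc, cA] at h ⊢
      linarith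
    · have h := cx_3 hv0 hv1 hw0' hw1' h1 h2
      norm_num [cc, cA] at h ⊢
      linarith
    · have h := cx_4 hv0 hv1 hw0' hw1' h1 h2
      norm_num [cc, cA] at h ⊢
      linarith
  · have hv0 : 1 ≤ v := by
      rw [hv]; simp only [if_true] at hu0; linarith
    have hv1 : v ≤ 2 := by
      rw [hv]; simp only [if_true] at hu1; linarith
    have hw0' : 1 ≤ w := by
      rw [hw]; simp only [if_true] at hw0; linarith
    have hw1' : w ≤ 2 := by
      rw [hw]; simp only [if_true] at hw1; linarith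
    cases j <;> cases j'
    · have h := cx_5 hv0 hv1 hw0' hw1' h1 h2
      norm_num [cc, cA] at h ⊢
      linarith
    · have h := cx_6 hv0 hv1 hw0' hw1' h1 h2
      norm_num [cc, cA] at h ⊢
      linarith
    · have h := cx_7 hv0 hv1 hw0' hw1' h1 h2
      norm_num [cc, cA] at h ⊢
      linarith
    · have h := cx_8 hv0 hv1 hw0' hw1' h1 h2
      norm_num [cc, cA] at h ⊢
      linarith

end Pool.Agent.Lib.MP_5bb92a_co
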