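import Mathlib
import Pool.Agent.Lib.MP_5bb92a_co.Phi

set_option autoImplicit false
set_option linter.unusedVariables false

open MeasureTheory Set

namespace Pool.Agent.Lib.MP_5bb92a_co

private theorem cz_bd0 {s α β : ℝ} (h1 : -1 ≤ s) (h2 : s ≤ 1) (hα : 0 < α)
    (hαβ : 1 + β ^ 2 ≤ α ^ 2) : ph s ≤ α - β * s := by
  have h := ph_le_lin (s := s) (α := α) (β := β) 0 (by
    rw [abs_le]; push_cast; constructor <;> linarith) hα hαβ
  push_cast at h
  linarith

private theorem cz_bdp {s α β : ℝ} (h1 : 1 ≤ s) (h2 : s ≤ 3) (hα : 0 < α)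
    (hαβ : 1 + β ^ 2 ≤ α ^ 2) : ph s ≤ α - β * (s - 2) := by
  have h := ph_le_lin (s := s) (α := α) (β := β) 1 (by
    rw [abs_le]; push_cast; constructor <;> linarith) hα hαβ
  push_cast at h
  linarith

private theorem cz_bdm {s α β : ℝ} (h1 : -3 ≤ s) (h2 : s ≤ -1) (hα : 0 < α)
    (hαβ : 1 + β ^ 2 ≤ α ^ 2) : ph s ≤ α - β * (s + 2) := by
  have h := ph_le_lin (s := s) (α := α) (β := β) (-1) (by
    rw [abs_le]; push_cast; constructor <;> linarith) hα hαβ
  push_cast at h
  linarith

private theorem cz_9 {v w : ℝ} (hv0 : 0 ≤ v) (hv1 : v ≤ 1) (hw0 : 0 ≤ w) (hw1 : w ≤ 1)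
    (h1 : v - w ≤ 1 / 10000) (h2 : w - v ≤ 1 / 10000) :
    ph (v + 13 / 100) + ph (w - 113 / 100) ≤ 16124 / 10000 := by
  rcases le_total v (87 / 100) with h | h
  · rcases le_total (13 / 100) w with h' | h'
    · have a1 := cz_bd0 (s := v + 13 / 100) (α := 1.2878) (β := 0.8113) (by linarith)
        (by linarith) (by norm_num) (by norm_num)
      have a2 := cz_bd0 (s := w - 113 / 100) (α := 1.2878) (β := -0.8113) (by linarith)
        (by linarith) (by norm_num) (by norm_num)
      norm_num at a1 a2 ⊢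
      linarith
    · have a1 := ph_le_one (v + 13 / 100)
      have a2 := cz_bdm (s := w - 113 / 100) (α := 2.0278) (β := 1.764) (by linarith)
        (by linarith) (by norm_num) (by norm_num)
      norm_num at a1 a2 ⊢
      linarith
  · have a2 := ph_le_one (w - 113 / 100)
    have a1 := cz_bdp (s := v + 13 / 100) (α := 2.0278) (β := -1.764) (by linarith)
      (by linarith) (by norm_num) (by norm_num)
    norm_num at a1 a2 ⊢
    linarith

private theorem cz_10 {v w : ℝ} (hv0 : 0 ≤ v) (hv1 : v ≤ 1) (hw0 : 0 ≤ w) (hw1 : w ≤ 1)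
    (h1 : v - w ≤ 1 / 10000) (h2 : w - v ≤ 1 / 10000) :
    ph (v + 13 / 100) + ph (w - 85 / 100) ≤ 17439 / 10000 := by
  rcases le_total v (87 / 100) with h | h
  · have a1 := cz_bd0 (s := v + 13 / 100) (α := 1.14712) (β := 0.562) (by linarith)
      (by linarith) (by norm_num) (by norm_num)
    have a2 := cz_bd0 (s := w - 85 / 100) (α := 1.14712) (β := -0.562) (by linarith)
      (by linarith) (by norm_num) (by norm_num)
    norm_num at a1 a2 ⊢
    linarith
  · have a2 := ph_le_one (w - 85 / 100)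
    have a1 := cz_bdp (s := v + 13 / 100) (α := 2.0278) (β := -1.764) (by linarith)
      (by linarith) (by norm_num) (by norm_num)
    norm_num at a1 a2 ⊢
    linarith

private theorem cz_11 {v w : ℝ} (hv0 : 0 ≤ v) (hv1 : v ≤ 1) (hw0 : 0 ≤ w) (hw1 : w ≤ 1)
    (h1 : v - w ≤ 1 / 10000) (h2 : w - v ≤ 1 / 10000) :
    ph (v - 15 / 100) + ph (w - 113 / 100) ≤ 17439 / 10000 := by
  rcases le_total (13 / 100) w with h | h
  · have a1 := cz_bd0 (s := v - 15 / 100) (α := 1.14712) (β := 0.562) (by linarith)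
      (by linarith) (by norm_num) (by norm_num)
    have a2 := cz_bd0 (s := w - 113 / 100) (α := 1.14712) (β := -0.562) (by linarith)
      (by linarith) (by norm_num) (by norm_num)
    norm_num at a1 a2 ⊢
    linarith
  · have a1 := ph_le_one (v - 15 / 100)
    have a2 := cz_bdm (s := w - 113 / 100) (α := 2.0278) (β := 1.764) (by linarith)
      (by linarith) (by norm_num) (by norm_num)
    norm_num at a1 a2 ⊢
    linarith

private theorem cz_12 {v w : ℝ} (hv0 : 0 ≤ v) (hv1 : v ≤ 1) (hw0 : 0 ≤ w) (hw1 : w ≤ 1)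
    (h1 : v - w ≤ 1 / 10000) (h2 : w - v ≤ 1 / 10000) :
    ph (v - 15 / 100) + ph (w - 85 / 100) ≤ 18754 / 10000 := by
  have a1 := cz_bd0 (s := v - 15 / 100) (α := 1.0676) (β := 0.3736) (by linarith)
    (by linarith) (by norm_num) (by norm_num)
  have a2 := cz_bd0 (s := w - 85 / 100) (α := 1.0676) (β := -0.3736) (by linarith)
    (by linarith) (by norm_num) (by norm_num)
  norm_num at a1 a2 ⊢
  linarith

private theorem cz_13 {v w : ℝ} (hv0 : 1 ≤ v) (hv1 : v ≤ 2) (hw0 : 1 ≤ w) (hw1 : w ≤ 2)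
    (h1 : v - w ≤ 1 / 10000) (h2 : w - v ≤ 1 / 10000) :
    ph (v + 13 / 100) + ph (w - 113 / 100) ≤ 19204 / 10000 := by
  have a1 := cz_bdp (s := v + 13 / 100) (α := 1.07632) (β := -0.398) (by linarith)
    (by linarith) (by norm_num) (by norm_num)
  have a2 := cz_bd0 (s := w - 113 / 100) (α := 1.07632) (β := 0.398) (by linarith)
    (by linarith) (by norm_num) (by norm_num)
  norm_num at a1 a2 ⊢
  linarith

private theorem cz_14 {v w : ℝ} (hv0 : 1 ≤ v) (hv1 : v ≤ 2) (hw0 : 1 ≤ w) (hw1 : w ≤ 2)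
    (h1 : v - w ≤ 1 / 10000) (h2 : w - v ≤ 1 / 10000) :
    ph (v + 13 / 100) + ph (w - 85 / 100) ≤ 17207 / 10000 := by
  rcases le_total w (185 / 100) with h | h
  · have a1 := cz_bdp (s := v + 13 / 100) (α := 1.16261) (β := -0.593) (by linarith)
      (by linarith) (by norm_num) (by norm_num)
    have a2 := cz_bd0 (s := w - 85 / 100) (α := 1.16261) (β := 0.593) (by linarith)
      (by linarith) (by norm_num) (by norm_num)
    norm_num at a1 a2 ⊢
    linarith
  · have a1 := ph_le_one (v + 13 / 100)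
    have a2 := cz_bdp (s := w - 85 / 100) (α := 1.8984) (β := -1.6136) (by linarith)
      (by linarith) (by norm_num) (by norm_num)
    norm_num at a1 a2 ⊢
    linarith

private theorem cz_15 {v w : ℝ} (hv0 : 1 ≤ v) (hv1 : v ≤ 2) (hw0 : 1 ≤ w) (hw1 : w ≤ 2)
    (h1 : v - w ≤ 1 / 10000) (h2 : w - v ≤ 1 / 10000) :
    ph (v - 15 / 100) + ph (w - 113 / 100) ≤ 17207 / 10000 := by
  rcases le_total (115 / 100) v with h | h
  · have a1 := cz_bdp (s := v - 15 / 100) (α := 1.16261) (β := -0.593) (by linarith)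
      (by linarith) (by norm_num) (by norm_num)
    have a2 := cz_bd0 (s := w - 113 / 100) (α := 1.16261) (β := 0.593) (by linarith)
      (by linarith) (by norm_num) (by norm_num)
    norm_num at a1 a2 ⊢
    linarith
  · have a2 := ph_le_one (w - 113 / 100)
    have a1 := cz_bd0 (s := v - 15 / 100) (α := 1.8984) (β := 1.6136) (by linarith)
      (by linarith) (by norm_num) (by norm_num)
    norm_num at a1 a2 ⊢
    linarith

private theorem cz_16 {v w : ℝ} (hv0 : 1 ≤ v) (hv1 : v ≤ 2) (hw0 : 1 ≤ w) (hw1 : w ≤ 2)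
    (h1 : v - w ≤ 1 / 10000) (h2 : w - v ≤ 1 / 10000) :
    ph (v - 15 / 100) + ph (w - 85 / 100) ≤ 15210 / 10000 := by
  rcases le_total (115 / 100) v with h | h
  · rcases le_total w (185 / 100) with h' | h'
    · have a1 := cz_bdp (s := v - 15 / 100) (α := 1.3159) (β := -0.8553) (by linarith)
        (by linarith) (by norm_num) (by norm_num)
      have a2 := cz_bd0 (s := w - 85 / 100) (α := 1.3159) (β := 0.8553) (by linarith)
        (by linarith) (by norm_num) (by norm_num)
      norm_num at a1 a2 ⊢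
      linarith
    · have a1 := cz_bdp (s := v - 15 / 100) (α := 1.01145) (β := -0.1517) (by linarith)
        (by linarith) (by norm_num) (by norm_num)
      have a2 := cz_bdp (s := w - 85 / 100) (α := 1.8984) (β := -1.6136) (by linarith)
        (by linarith) (by norm_num) (by norm_num)
      norm_num at a1 a2 ⊢
      linarith
  · have a1 := cz_bd0 (s := v - 15 / 100) (α := 1.8984) (β := 1.6136) (by linarith)
      (by linarith) (by norm_num) (by norm_num)
    have a2 := cz_bd0 (s := w - 85 / 100) (α := 1.01145) (β := 0.1517) (by linarith)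
      (by linarith) (by norm_num) (by norm_num)
    norm_num at a1 a2 ⊢
    linarith

theorem certZ (j k k' : Bool) (n : ℤ) (u u' : ℝ) (hu : u ∈ Set.Icc (pl j n) (pl j n + 1))
    (hu' : u' ∈ Set.Icc (pl j n) (pl j n + 1)) (huu : |u - u'| ≤ hh) :
    ph (u - ca k) + ph (1 - u' - ca k') ≤ 2 * rho - cA k j - cA k' j := by
  obtain ⟨hu0, hu1⟩ := hu
  obtain ⟨hw0, hw1⟩ := hu'
  have h1 : (u - 2 * n) - (u' - 2 * n) ≤ 1 / 10000 := by
    have := (abs_le.1 huu).2
    unfold hh at this
    linarith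
  have h2 : (u' - 2 * n) - (u - 2 * n) ≤ 1 / 10000 := by
    have := (abs_le.1 huu).1
    unfold hh at this
    linarith
  have e1 : ph (u - ca k) = ph ((u - 2 * n) - ca k) := by
    rw [← ph_add ((u - 2 * n) - ca k) n]
    congr 1
    ring
  have e2 : ph (1 - u' - ca k') = ph ((u' - 2 * n) - (1 - ca k')) := by
    rw [← ph_neg, ← ph_add ((u' - 2 * n) - (1 - ca k')) n]
    congr 1
    ring
  rw [e1, e2]
  set v : ℝ := u - 2 * n with hv
  set w : ℝ := u' - 2 * n with hw
  unfold pl at hu0 hu1 hw0 hw1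
  cases j
  · have hv0 : 0 ≤ v := by
      rw [hv]; simp only [Bool.false_eq_true, if_false] at hu0; linarith
    have hv1 : v ≤ 1 := by
      rw [hv]; simp only [Bool.false_eq_true, if_false] at hu1; linarith
    have hw0' : 0 ≤ w := by
      rw [hw]; simp only [Bool.false_eq_true, if_false] at hw0; linarith
    have hw1' : w ≤ 1 := by
      rw [hw]; simp only [Bool.false_eq_true, if_false] at hw1; linarith
    cases k <;> cases k'
    · have h := cz_9 hv0 hv1 hw0' hw1' h1 h2
      norm_num [ca, cA, rho] at h ⊢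
      linarith
    · have h := cz_10 hv0 hv1 hw0' hw1' h1 h2
      norm_num [ca, cA, rho] at h ⊢
      linarith
    · have h := cz_11 hv0 hv1 hw0' hw1' h1 h2
      norm_num [ca, cA, rho] at h ⊢
      linarith
    · have h := cz_12 hv0 hv1 hw0' hw1' h1 h2
      norm_num [ca, cA, rho] at h ⊢
      linarith
  · have hv0 : 1 ≤ v := by
      rw [hv]; simp only [if_true] at hu0; linarith
    have hv1 : v ≤ 2 := by
      rw [hv]; simp only [if_true] at hu1; linarith
    have hw0' : 1 ≤ w := by
      rw [hw]; simp only [if_true] at hw0; linarith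
    have hw1' : w ≤ 2 := by
      rw [hw]; simp only [if_true] at hw1; linarith
    cases k <;> cases k'
    · have h := cz_13 hv0 hv1 hw0' hw1' h1 h2
      norm_num [ca, cA, rho] at h ⊢
      linarith
    · have h := cz_14 hv0 hv1 hw0' hw1' h1 h2
      norm_num [ca, cA, rho] at h ⊢
      linarith
    · have h := cz_15 hv0 hv1 hw0' hw1' h1 h2
      norm_num [ca, cA, rho] at h ⊢
      linarith
    · have h := cz_16 hv0 hv1 hw0' hw1' h1 h2
      norm_num [ca, cA, rho] at h ⊢
      linarith

end Pool.Agent.Lib.MP_5bb92a_co
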