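import Mathlib
import Pool.Agent.Lib.MP_5bb92a_co.CertX
import Pool.Agent.Lib.MP_5bb92a_co.CertZ

set_option autoImplicit false

open MeasureTheory Set

namespace Pool.Agent.Lib.MP_5bb92a_co

/-- a slab is contained in a piece -/
theorem slab_piece (s : ℤ) : ∃ n : ℤ, slab s ⊆ Set.Icc (pl (pc s) n) (pl (pc s) n + 1) := by
  have h1 : 10000 * (s / 10000) + s % 10000 = s := Int.mul_ediv_add_emod s 10000
  have h2 : 0 ≤ s % 10000 := Int.emod_nonneg s (by norm_num)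
  have h3 : s % 10000 < 10000 := Int.emod_lt_of_pos s (by norm_num)
  refine ⟨(s / 10000) / 2, ?_⟩
  have hpl : pl (pc s) ((s / 10000) / 2) = ((s / 10000 : ℤ) : ℝ) := by
    unfold pl pc
    have h4 : 2 * ((s / 10000) / 2) + (s / 10000) % 2 = s / 10000 :=
      Int.mul_ediv_add_emod (s / 10000) 2
    by_cases h : s / 10000 % 2 = 1
    · simp only [h, decide_true, if_true]
      rw [h] at h4
      have : (2 : ℝ) * (((s / 10000) / 2 : ℤ) : ℝ) + 1 = ((s / 10000 : ℤ) : ℝ) := by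
        exact_mod_cast h4
      exact this
    · have h0 : s / 10000 % 2 = 0 := by omega
      rw [h0] at h4
      simp only [h0]
      have : (2 : ℝ) * (((s / 10000) / 2 : ℤ) : ℝ) + 0 = ((s / 10000 : ℤ) : ℝ) := by
        exact_mod_cast h4
      simpa using this
  rw [hpl]
  intro x hx
  unfold slab hh at hx
  have h5 : (s : ℝ) = 10000 * ((s / 10000 : ℤ) : ℝ) + ((s % 10000 : ℤ) : ℝ) := by
    exact_mod_cast h1.symm
  have h6 : (0 : ℝ) ≤ ((s % 10000 : ℤ) : ℝ) := by exact_mod_cast h2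
  have h7 : ((s % 10000 : ℤ) : ℝ) + 1 ≤ 10000 := by
    have : s % 10000 + 1 ≤ 10000 := by omega
    exact_mod_cast this
  obtain ⟨ha, hb⟩ := hx
  constructor
  · linarith
  · linarith

private theorem slab_diff {s : ℤ} {x x' : ℝ} (hx : x ∈ slab s) (hx' : x' ∈ slab s) :
    |x - x'| ≤ hh := by
  unfold slab at hx hx'
  rw [abs_le]
  obtain ⟨a, b⟩ := hx
  obtain ⟨a', b'⟩ := hx'
  constructor
  · linarith
  · linarith

private theorem left_mem (s : ℤ) : (s : ℝ) * hh ∈ slab s := by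
  unfold slab
  have : (0 : ℝ) < hh := by unfold hh; norm_num
  constructor
  · exact le_refl _
  · linarith

theorem exists_goodY : ∃ y : ℤ → ℝ, GoodY y := by
  have key : ∀ s : ℤ, ∃ y : ℝ, ∀ x : ℝ, x ∈ slab s → ∀ j : Bool,
      y + ph (x - cc j) ≤ cA (pc s) j ∧ -y + ph (1 - x - cc j) ≤ cA (pc s) j := by
    intro s
    obtain ⟨n, hn⟩ := slab_piece s
    obtain ⟨y, hy1, hy2⟩ := exists_between_of_forall_le
      (s := {a : ℝ | ∃ x ∈ slab s, ∃ j : Bool, a = ph (1 - x - cc j) - cA (pc s) j})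
      (t := {a : ℝ | ∃ x ∈ slab s, ∃ j : Bool, a = cA (pc s) j - ph (x - cc j)})
      ⟨_, (s : ℝ) * hh, left_mem s, true, rfl⟩ ⟨_, (s : ℝ) * hh, left_mem s, true, rfl⟩
      (by
        rintro a ⟨x', hx', j', rfl⟩ b ⟨x, hx, j, rfl⟩
        have h := certX (pc s) j j' n x x' (hn hx) (hn hx') (slab_diff hx hx')
        linarith)
    refine ⟨y, fun x hx j => ⟨?_, ?_⟩⟩
    · have := hy2 ⟨x, hx, j, rfl⟩
      linarith
    · have := hy1 ⟨x, hx, j, rfl⟩
      linarith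
  choose y hy using key
  exact ⟨y, fun s x hx j => hy s x hx j⟩

theorem exists_goodZ : ∃ Y : ℤ → ℝ, GoodZ Y := by
  have key : ∀ s : ℤ, ∃ Y : ℝ, ∀ z : ℝ, z ∈ slab s → ∀ k : Bool,
      cA k (pc s) + ph (z - ca k) ≤ rho + Y ∧ cA k (pc s) + ph (1 - z - ca k) ≤ rho - Y := by
    intro s
    obtain ⟨n, hn⟩ := slab_piece s
    obtain ⟨y, hy1, hy2⟩ := exists_between_of_forall_le
      (s := {a : ℝ | ∃ z ∈ slab s, ∃ k : Bool, a = cA k (pc s) + ph (z - ca k) - rho})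
      (t := {a : ℝ | ∃ z ∈ slab s, ∃ k : Bool, a = rho - cA k (pc s) - ph (1 - z - ca k)})
      ⟨_, (s : ℝ) * hh, left_mem s, true, rfl⟩ ⟨_, (s : ℝ) * hh, left_mem s, true, rfl⟩
      (by
        rintro a ⟨x, hx, k, rfl⟩ b ⟨x', hx', k', rfl⟩
        have h := certZ (pc s) k k' n x x' (hn hx) (hn hx') (slab_diff hx hx')
        linarith)
    refine ⟨y, fun x hx j => ⟨?_, ?_⟩⟩
    · have := hy1 ⟨x, hx, j, rfl⟩
      linarith
    · have := hy2 ⟨x, hx, j, rfl⟩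
      linarith
  choose y hy using key
  exact ⟨y, fun s x hx j => hy s x hx j⟩

private theorem cA_bounds (k j : Bool) : 7 / 10 ≤ cA k j ∧ cA k j ≤ 1 := by
  cases k <;> cases j <;> norm_num [cA]

theorem GoodY.abs_le {y : ℤ → ℝ} (h : GoodY y) (s : ℤ) : |y s| ≤ 1 := by
  obtain ⟨h1, h2⟩ := h s _ (left_mem s) true
  have h3 := ph_nonneg ((s : ℝ) * hh - cc true)
  have h4 := ph_nonneg (1 - (s : ℝ) * hh - cc true)
  have h5 := cA_bounds (pc s) true
  rw [_root_.abs_le]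
  constructor
  · linarith [h5.2]
  · linarith [h5.2]

theorem GoodZ.abs_le {Y : ℤ → ℝ} (h : GoodZ Y) (s : ℤ) : |Y s| ≤ 2 := by
  obtain ⟨h1, h2⟩ := h s _ (left_mem s) true
  have h3 := ph_nonneg ((s : ℝ) * hh - ca true)
  have h4 := ph_nonneg (1 - (s : ℝ) * hh - ca true)
  have h5 := cA_bounds true (pc s)
  have h6 : rho ≤ 2 := by unfold rho; norm_num
  rw [_root_.abs_le]
  constructor
  · linarith [h5.1]
  · linarith [h5.1]

end Pool.Agent.Lib.MP_5bb92a_co
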