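import Mathlib
import Pool.Agent.Lib.MP_5bb92a_co.Defs

set_option autoImplicit false

open MeasureTheory Set

namespace Pool.Agent.Lib.MP_5bb92a_co

private theorem vol_disc (u v : ℝ) :
    volume {r : Fin 2 → ℝ | (r 0 - u) ^ 2 + (r 1 - v) ^ 2 < 1} = ENNReal.ofReal Real.pi := by
  have hmp := EuclideanSpace.volume_preserving_symm_measurableEquiv_toLp (Fin 2)
  have hb : MeasurableSet {r : Fin 2 → ℝ | (r 0 - u) ^ 2 + (r 1 - v) ^ 2 < 1} := by
    apply measurableSet_lt <;> fun_prop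
  have h := hmp.measure_preimage hb.nullMeasurableSet
  rw [← h]
  have hset : (MeasurableEquiv.toLp 2 (Fin 2 → ℝ)).symm ⁻¹'
      {r : Fin 2 → ℝ | (r 0 - u) ^ 2 + (r 1 - v) ^ 2 < 1} =
      Metric.ball (WithLp.toLp 2 ![u, v] : EuclideanSpace ℝ (Fin 2)) 1 := by
    ext p
    rw [Metric.mem_ball, EuclideanSpace.dist_eq, Real.sqrt_lt' one_pos]
    simp [Fin.sum_univ_two, Real.dist_eq, sq_abs]
  rw [hset, EuclideanSpace.volume_ball_fin_two]
  simp [ENNReal.ofReal, Real.toNNReal_of_nonneg Real.pi_pos.le]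

private theorem vol_fin_three (j : Fin 3) (a b : ℝ) (D : Set (Fin 2 → ℝ)) (hD : MeasurableSet D) :
    volume {q : Fin 3 → ℝ | (a < q j ∧ q j < b) ∧ (fun i => q (j.succAbove i)) ∈ D} =
      ENNReal.ofReal (b - a) * volume D := by
  have hmp := volume_preserving_piFinSuccAbove (fun _ : Fin 3 => ℝ) j
  have hm : MeasurableSet (Ioo a b ×ˢ D) := measurableSet_Ioo.prod hD
  have h := hmp.measure_preimage hm.nullMeasurableSet
  have hset : (MeasurableEquiv.piFinSuccAbove (fun _ : Fin 3 => ℝ) j) ⁻¹' (Ioo a b ×ˢ D) =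
      {q : Fin 3 → ℝ | (a < q j ∧ q j < b) ∧ (fun i => q (j.succAbove i)) ∈ D} := by
    ext q
    rfl
  rw [← hset, h, Measure.volume_eq_prod, Measure.prod_prod, Real.volume_Ioo]

private theorem meas_fin_three (j : Fin 3) (a b : ℝ) (D : Set (Fin 2 → ℝ))
    (hD : MeasurableSet D) :
    MeasurableSet {q : Fin 3 → ℝ | (a < q j ∧ q j < b) ∧ (fun i => q (j.succAbove i)) ∈ D} :=
  (MeasurableEquiv.piFinSuccAbove (fun _ : Fin 3 => ℝ) j).measurable
    (measurableSet_Ioo.prod hD : MeasurableSet (Ioo a b ×ˢ D))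

/-- the volume of an open coin -/
theorem volume_oc (y Y : ℤ → ℝ) (l s k : ℤ) :
    volume (oc y Y l s k) = ENNReal.ofReal (Real.pi * hh) := by
  have hmp := EuclideanSpace.volume_preserving_symm_measurableEquiv_toLp (Fin 3)
  have hpi : ENNReal.ofReal ((s + 1) * hh - s * hh) * ENNReal.ofReal Real.pi =
      ENNReal.ofReal (Real.pi * hh) := by
    rw [mul_comm, ← ENNReal.ofReal_mul Real.pi_pos.le]
    congr 1
    ring
  by_cases hl : l % 2 = 0
  · have hb : MeasurableSet {r : Fin 2 → ℝ | (r 0 - ctr y Y l s) ^ 2 +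
        (r 1 - (off l s + 2 * k)) ^ 2 < 1} := by
      apply measurableSet_lt <;> fun_prop
    have h3 := vol_fin_three 0 (s * hh) ((s + 1) * hh) _ hb
    rw [vol_disc, hpi] at h3
    rw [← h3]
    have hm := meas_fin_three 0 (s * hh) ((s + 1) * hh) _ hb
    rw [← hmp.measure_preimage hm.nullMeasurableSet]
    congr 1
    ext p
    simp only [oc, tr, ax, hl, if_true, mem_ofPred_eq, mem_preimage]
    constructor
    · rintro ⟨h1, h2, h4⟩
      exact ⟨⟨h2, h4⟩, by rw [add_comm] at h1; exact h1⟩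
    · rintro ⟨⟨h2, h4⟩, h1⟩
      exact ⟨by rw [add_comm]; exact h1, h2, h4⟩
  · have hb : MeasurableSet {r : Fin 2 → ℝ | (r 0 - (off l s + 2 * k)) ^ 2 +
        (r 1 - ctr y Y l s) ^ 2 < 1} := by
      apply measurableSet_lt <;> fun_prop
    have h3 := vol_fin_three 2 (s * hh) ((s + 1) * hh) _ hb
    rw [vol_disc, hpi] at h3
    rw [← h3]
    have hm := meas_fin_three 2 (s * hh) ((s + 1) * hh) _ hb
    rw [← hmp.measure_preimage hm.nullMeasurableSet]
    congr 1
    ext p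
    simp only [oc, tr, ax, hl, if_false, mem_ofPred_eq, mem_preimage]
    constructor
    · rintro ⟨h1, h2, h4⟩
      exact ⟨⟨h2, h4⟩, h1⟩
    · rintro ⟨⟨h2, h4⟩, h1⟩
      exact ⟨h1, h2, h4⟩

end Pool.Agent.Lib.MP_5bb92a_co
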