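import Mathlib
import Pool.Agent.Lib.MP_5bb92a_co.Heights
import Pool.Agent.Lib.MP_5bb92a_co.Disj
import Pool.Agent.Lib.MP_5bb92a_co.Iso
import Pool.Agent.Lib.MP_5bb92a_co.Vol
import Pool.Agent.Lib.MP_5bb92a_co.Dens

set_option autoImplicit false

open MeasureTheory Set Filter Topology

namespace Pool.Agent.Lib.MP_5bb92a_co

/-- the packing -/
def packing (y Y : ℤ → ℝ) : Set (Set E3) := {A | ∃ l s k : ℤ, A = coin y Y l s k}

/-- the permutation of the coordinates for the family number `r` -/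
def perm (r : Fin 4) : Equiv.Perm (Fin 3) := if r.val % 2 = 0 then 1 else Equiv.swap 0 2

private theorem off_abs_le (l s : ℤ) : |off l s| ≤ 2 := by
  unfold off ca cc
  split_ifs <;> rw [abs_le] <;> constructor <;> norm_num

private theorem perm_ax (r : Fin 4) (j : ℤ) (p : E3) :
    p (perm r 0) = ax (4 * j + r.val) p ∧ p (perm r 1) = p 1 ∧
      p (perm r 2) = tr (4 * j + r.val) p := by
  unfold perm ax tr
  fin_cases r
  · have h : (4 * j + ((0 : ℕ) : ℤ)) % 2 = 0 := by omega
    refine ⟨?_, ?_, ?_⟩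
    · simp only [h, if_true]
      simp
    · simp
    · simp only [h, if_true]
      simp
  · have h : (4 * j + ((1 : ℕ) : ℤ)) % 2 ≠ 0 := by omega
    have h1 : (Equiv.swap (0 : Fin 3) 2) 1 = 1 := by decide
    refine ⟨?_, ?_, ?_⟩
    · simp only [h, if_false]
      simp
    · simp [h1]
    · simp only [h, if_false]
      simp
  · have h : (4 * j + ((2 : ℕ) : ℤ)) % 2 = 0 := by omega
    refine ⟨?_, ?_, ?_⟩
    · simp only [h, if_true]
      simp
    · simp
    · simp only [h, if_true]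
      simp
  · have h : (4 * j + ((3 : ℕ) : ℤ)) % 2 ≠ 0 := by omega
    have h1 : (Equiv.swap (0 : Fin 3) 2) 1 = 1 := by decide
    refine ⟨?_, ?_, ?_⟩
    · simp only [h, if_false]
      simp
    · simp [h1]
    · simp only [h, if_false]
      simp

private theorem ctr_near {y Y : ℤ → ℝ} (hy : GoodY y) (hY : GoodZ Y) (r : Fin 4) (i j : ℤ) :
    |ctr y Y (4 * j + r.val) i - 4 * rho * j| ≤ 9 := by
  have h1 := abs_le.1 (hy.abs_le i)
  have h2 := abs_le.1 (hY.abs_le i)
  have hr : r.val < 4 := r.isLt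
  have hd : (4 * j + (r.val : ℤ)) / 4 = j := by omega
  have hm : (4 * j + (r.val : ℤ)) % 4 = r.val := by omega
  unfold ctr
  rw [hd, hm]
  unfold rho
  rw [abs_le]
  split_ifs <;> constructor <;> linarith

private theorem near {y Y : ℤ → ℝ} (hy : GoodY y) (hY : GoodZ Y) (r : Fin 4) (i j k : ℤ) (p : E3)
    (hp : p ∈ oc y Y (4 * j + r.val) i k) :
    |p (perm r 0) - hh * i| ≤ 10 ∧ |p (perm r 1) - 4 * rho * j| ≤ 10 ∧
      |p (perm r 2) - 2 * k| ≤ 10 := by
  obtain ⟨e0, e1, e2⟩ := perm_ax r j p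
  rw [e0, e1, e2]
  obtain ⟨h1, h2, h3⟩ := hp
  have hc := abs_le.1 (ctr_near hy hY r i j)
  have ho := abs_le.1 (off_abs_le (4 * j + r.val) i)
  have ha : |tr (4 * j + r.val) p - (off (4 * j + r.val) i + 2 * k)| ≤ 1 := by
    rw [← sq_le_one_iff_abs_le_one]
    nlinarith [sq_nonneg (p 1 - ctr y Y (4 * j + r.val) i)]
  have hb : |p 1 - ctr y Y (4 * j + r.val) i| ≤ 1 := by
    rw [← sq_le_one_iff_abs_le_one]
    nlinarith [sq_nonneg (tr (4 * j + r.val) p - (off (4 * j + r.val) i + 2 * k))]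
  have ha' := abs_le.1 ha
  have hb' := abs_le.1 hb
  have hh1 : hh ≤ 1 := by unfold hh; norm_num
  refine ⟨?_, ?_, ?_⟩
  · rw [abs_le]
    constructor <;> linarith
  · rw [abs_le]
    constructor <;> linarith
  · rw [abs_le]
    constructor <;> linarith

theorem packing_lower {y Y : ℤ → ℝ} (hy : GoodY y) (hY : GoodZ Y) :
    ENNReal.ofReal (Real.pi / (2 * rho)) ≤ Filter.limsup (fun R : ℝ =>
      volume ((⋃₀ packing y Y) ∩ Metric.ball (0 : E3) R) / volume (Metric.ball (0 : E3) R))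
      Filter.atTop := by
  have hh0 : (0 : ℝ) < hh := by unfold hh; norm_num
  have hr0 : (0 : ℝ) < rho := by unfold rho; norm_num
  have key := density_lower (N := 4) (a := hh) (b := 4 * rho) (c := 2) (v := Real.pi * hh)
    (C := 10) hh0 (by positivity) (by norm_num) (by positivity) (by norm_num) perm
    (fun r i j k => oc y Y (4 * j + r.val) i k)
    (fun r i j k => (isOpen_oc y Y _ _ _).measurableSet)
    (by
      intro r i j k r' i' j' k' hne
      apply oc_disjoint hy hY
      intro he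
      apply hne
      simp only [Prod.mk.injEq] at he ⊢
      obtain ⟨h1, h2, h3⟩ := he
      have hr : r.val < 4 := r.isLt
      have hr' : r'.val < 4 := r'.isLt
      refine ⟨?_, h2, ?_, h3⟩
      · apply Fin.ext
        omega
      · omega)
    (fun r i j k => volume_oc y Y _ _ _)
    (fun r i j k p hp => near hy hY r i j k p hp)
    (⋃₀ packing y Y)
    (by
      intro r i j k
      refine (oc_subset_coin y Y _ _ _).trans ?_
      intro p hp
      exact ⟨_, ⟨_, _, _, rfl⟩, hp⟩)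
  have he : Real.pi / (2 * rho) = ((4 : ℕ) : ℝ) * (Real.pi * hh) / (hh * (4 * rho) * 2) := by
    field_simp
    norm_num
  rw [he]
  exact key

theorem main : ¬ (∀ h : ℝ, 0 < h →
      (⨆ (P : Set (Set (EuclideanSpace ℝ (Fin 3))))
         (_ : (∀ A ∈ P, ∃ f : EuclideanSpace ℝ (Fin 3) ≃ᵢ EuclideanSpace ℝ (Fin 3),
                A = f '' {p : EuclideanSpace ℝ (Fin 3) |
                  p 0 ^ 2 + p 1 ^ 2 ≤ 1 ∧ 0 ≤ p 2 ∧ p 2 ≤ h}) ∧
              (∀ A ∈ P, ∀ B ∈ P, A ≠ B → Disjoint (interior A) (interior B))),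
         Filter.limsup
           (fun R : ℝ =>
             MeasureTheory.volume ((⋃₀ P) ∩ Metric.ball (0 : EuclideanSpace ℝ (Fin 3)) R) /
               MeasureTheory.volume (Metric.ball (0 : EuclideanSpace ℝ (Fin 3)) R))
           Filter.atTop)
      = ENNReal.ofReal (Real.pi / Real.sqrt 12)) := by
  intro H
  obtain ⟨y, hy⟩ := exists_goodY
  obtain ⟨Y, hY⟩ := exists_goodZ
  have hh0 : (0 : ℝ) < hh := by unfold hh; norm_num
  have h1 := H hh hh0
  have h2 : ENNReal.ofReal (Real.pi / (2 * rho)) ≤ ENNReal.ofReal (Real.pi / Real.sqrt 12) := by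
    rw [← h1]
    refine (packing_lower hy hY).trans ?_
    refine le_iSup₂_of_le (packing y Y) ⟨?_, ?_⟩ le_rfl
    · rintro A ⟨l, s, k, rfl⟩
      exact coin_isometric y Y l s k
    · rintro A ⟨l, s, k, rfl⟩ B ⟨l', s', k', rfl⟩ hne
      refine Set.disjoint_of_subset (interior_coin_subset y Y l s k)
        (interior_coin_subset y Y l' s' k') ?_
      apply oc_disjoint hy hY
      intro he
      simp only [Prod.mk.injEq] at he
      obtain ⟨e1, e2, e3⟩ := he
      apply hne
      rw [e1, e2, e3]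
  have h3 : 0 < Real.sqrt 12 := Real.sqrt_pos.2 (by norm_num)
  have h4 : Real.pi / (2 * rho) ≤ Real.pi / Real.sqrt 12 :=
    (ENNReal.ofReal_le_ofReal_iff (by positivity)).1 h2
  have h5 : 2 * rho < Real.sqrt 12 := by
    apply Real.lt_sqrt_of_sq_lt
    unfold rho
    norm_num
  have hr0 : (0 : ℝ) < 2 * rho := by unfold rho; norm_num
  have h6 : Real.pi / Real.sqrt 12 < Real.pi / (2 * rho) :=
    div_lt_div_of_pos_left Real.pi_pos hr0 h5
  exact absurd h4 (not_le.2 h6)

end Pool.Agent.Lib.MP_5bb92a_co
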